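import Mathlib
import Pool.Agent.H.MP_1000ca_al.Poly

namespace Pool.Agent.Results.MP_1000ca_al.Q2

open Subgroup Pool.Agent.H.MP_1000ca_al

theorem card_step {G : Type*} [Group G] [Finite G] {p n : ℕ} (hp : p.Prime)
    (hG : Nat.card G = p ^ n) {H K : Subgroup G} (h : H ≤ K) (hne : H ≠ K) :
    p * Nat.card H ≤ Nat.card K := by
  obtain ⟨a, -, ha⟩ := (Nat.dvd_prime_pow hp).1 (hG ▸ card_subgroup_dvd_card H)
  obtain ⟨b, -, hb⟩ := (Nat.dvd_prime_pow hp).1 (hG ▸ card_subgroup_dvd_card K)
  have hlt : Nat.card H < Nat.card K := by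
    by_contra hc
    exact hne (eq_of_le_of_card_ge h (not_lt.1 hc))
  rw [ha, hb] at hlt ⊢
  rw [← pow_succ']
  exact Nat.pow_le_pow_right hp.pos ((Nat.pow_lt_pow_iff_right hp.one_lt).1 hlt)

theorem gens {G : Type*} [Group G] [Finite G] {p n : ℕ} (hp : p.Prime)
    (hG : Nat.card G = p ^ n) : ∃ s : Fin n → G, closure (Set.range s) = ⊤ := by
  have key : ∀ k, ∃ s : Fin k → G, closure (Set.range s) = ⊤ ∨
      p ^ k ≤ Nat.card (closure (Set.range s)) := by
    intro k
    induction k with
    | zero => exact ⟨Fin.elim0, Or.inr (by rw [pow_zero]; exact Nat.card_pos)⟩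
    | succ k ih =>
      obtain ⟨s, hs⟩ := ih
      have hle : ∀ g : G, closure (Set.range s) ≤ closure (Set.range (Fin.cons g s : Fin _ → G)) :=
        fun g => closure_mono (by rw [Fin.range_cons]; exact Set.subset_insert _ _)
      by_cases ht : closure (Set.range s) = ⊤
      · exact ⟨Fin.cons 1 s, Or.inl (top_le_iff.1 (ht ▸ hle 1))⟩
      · obtain ⟨g, hg⟩ : ∃ g, g ∉ closure (Set.range s) := by
          by_contra hc
          push Not at hc
          exact ht ((eq_top_iff' _).2 hc)
        refine ⟨Fin.cons g s, Or.inr ?_⟩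
        have := card_step hp hG (hle g) (fun e => hg (e ▸ subset_closure ⟨0, rfl⟩))
        rw [pow_succ']
        exact (Nat.mul_le_mul_left p (hs.resolve_left ht)).trans this
  obtain ⟨s, hs | hs⟩ := key n
  · exact ⟨s, hs⟩
  · exact ⟨s, eq_top_of_le_card _ (hG ▸ hs)⟩

theorem lcs_bot {G : Type*} [Group G] [Finite G] {p n : ℕ} (hp : p.Prime)
    (hG : Nat.card G = p ^ n) : (⊤ : Subgroup G).lowerCentralSeries n = ⊥ := by
  have := Fact.mk hp
  have hnil : Group.IsNilpotent G := (IsPGroup.of_card hG).isNilpotent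
  obtain ⟨N, hN⟩ := Subgroup.nilpotent_iff_lowerCentralSeries.1 hnil
  have key : ∀ k, (⊤ : Subgroup G).lowerCentralSeries k = ⊥ ∨
      p ^ k * Nat.card ((⊤ : Subgroup G).lowerCentralSeries k) ≤ p ^ n := by
    intro k
    induction k with
    | zero => right; simp [hG]
    | succ k ih =>
      have hle : (⊤ : Subgroup G).lowerCentralSeries (k + 1) ≤
          (⊤ : Subgroup G).lowerCentralSeries k :=
        Subgroup.lowerCentralSeries_antitone _ (Nat.le_succ k)
      rcases ih with ih | ih
      · exact Or.inl (le_bot_iff.1 (ih ▸ hle))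
      · by_cases e : (⊤ : Subgroup G).lowerCentralSeries (k + 1) =
            (⊤ : Subgroup G).lowerCentralSeries k
        · left
          have h1 : ∀ j, (⊤ : Subgroup G).lowerCentralSeries (k + j) =
              (⊤ : Subgroup G).lowerCentralSeries k := by
            intro j
            induction j with
            | zero => rfl
            | succ j ihj =>
              rw [← add_assoc, Subgroup.lowerCentralSeries_succ, ihj,
                ← Subgroup.lowerCentralSeries_succ, e]
          rw [e, ← h1 N, ← le_bot_iff, ← hN]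
          exact Subgroup.lowerCentralSeries_antitone _ (Nat.le_add_left N k)
        · right
          have := card_step hp hG hle e
          rw [pow_succ, mul_assoc]
          exact (Nat.mul_le_mul_left _ this).trans ih
  rcases key n with h | h
  · exact h
  · apply eq_bot_of_card_le
    have hpos : 0 < p ^ n := pow_pos hp.pos n
    exact Nat.le_of_mul_le_mul_left (by simpa using h) hpos

theorem card_closure {B ι : Type*} [CommGroup B] [Fintype ι] (w : ι → B) (q : ℕ) (hq : 0 < q)
    (h : ∀ i, w i ^ q = 1) : Finite (closure (Set.range w)) ∧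
      Nat.card (closure (Set.range w)) ≤ q ^ Fintype.card ι ∧
      ∀ x ∈ closure (Set.range w), x ^ q = 1 := by
  classical
  let F : (ι → Fin q) → closure (Set.range w) := fun v =>
    ⟨∏ i, w i ^ (v i : ℕ), prod_mem fun i _ => pow_mem (Subgroup.subset_closure (Set.mem_range_self i)) _⟩
  have hF : Function.Surjective F := by
    rintro ⟨x, hx⟩
    obtain ⟨a, rfl⟩ := mem_closure_range_iff_of_fintype.1 hx
    have hq' : (0 : ℤ) < q := by exact_mod_cast hq
    refine ⟨fun i => ⟨(a i % q).toNat, by
      have := Int.emod_lt_of_pos (a i) hq'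
      have := Int.emod_nonneg (a i) hq'.ne'
      omega⟩, Subtype.ext ?_⟩
    refine Finset.prod_congr rfl fun i _ => ?_
    rw [zpow_eq_zpow_emod' (a i) (h i), ← zpow_natCast,
      Int.toNat_of_nonneg (Int.emod_nonneg (a i) hq'.ne')]
  refine ⟨Finite.of_surjective F hF, ?_, ?_⟩
  · simpa using Nat.card_le_card_of_surjective F hF
  · intro x hx
    obtain ⟨v, hv⟩ := hF ⟨x, hx⟩
    have : x = ∏ i, w i ^ (v i : ℕ) := (congrArg Subtype.val hv).symm
    rw [this, ← Finset.prod_pow]
    exact Finset.prod_eq_one fun i _ => by rw [← pow_mul, mul_comm, pow_mul, h, one_pow]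

/-- number of words of length at most `n` in `n` letters -/
noncomputable def m (n : ℕ) : ℕ := Nat.card {l : List (Fin n) | l.length ≤ n}

theorem module {G : Type} [Group G] {p n : ℕ} (hp : p.Prime) (hpn : 2 ^ n < p)
    (hG : Nat.card G = p ^ n) :
    ∃ (W : Type) (_ : CommGroup W) (_ : Finite W) (ρ : G →* MulAut W), Function.Injective ρ ∧
      Nat.card W ≤ p ^ (n * m n) ∧ ∀ w : W, w ^ (p ^ n) = 1 := by
  have hpos : 0 < p ^ n := pow_pos hp.pos n
  have : Finite G := Nat.finite_of_card_ne_zero (hG ▸ hpos.ne')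
  obtain ⟨A, _, θ, h1, h2, h3, h4⟩ := poly hp hpn (lcs_bot hp hG) (fun x => hG ▸ pow_card_eq_one')
  obtain ⟨s, hs⟩ := gens hp hG
  have : Fintype {l : List (Fin n) | l.length ≤ n} := (List.finite_length_le (Fin n) n).fintype
  let w : {l : List (Fin n) | l.length ≤ n} → (G → A) := fun l => D (l.1.map s) θ
  have hD : ∀ l : List G, D l θ ^ (p ^ n) = 1 := by
    intro l
    induction l with
    | nil => funext x; exact h3 x
    | cons a l ih => rw [D_cons, mul_pow, inv_pow, ← map_pow, ih]; simp
  obtain ⟨hfin, hcard, hexp⟩ := card_closure w (p ^ n) hpos (fun l => hD _)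
  have hT : ∀ g : G, ∀ u ∈ closure (Set.range w), T A g u ∈ closure (Set.range w) := by
    intro g
    have hg : g ∈ Submonoid.closure (Set.range s) := by
      rw [← Subgroup.closure_toSubmonoid_of_finite, hs]; trivial
    induction hg using Submonoid.closure_induction with
    | mem g hg =>
      obtain ⟨i, rfl⟩ := hg
      refine fun u hu => (show closure (Set.range w) ≤ (closure (Set.range w)).comap (T A (s i))
        from (closure_le _).2 ?_) hu
      rintro _ ⟨l, rfl⟩
      have e : T A (s i) (w l) = w l * D ((i :: l.1).map s) θ := by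
        rw [List.map_cons, D_cons]; simp [w]
      change T A (s i) (w l) ∈ closure (Set.range w)
      rw [e]
      refine mul_mem (subset_closure ⟨l, rfl⟩) ?_
      by_cases hl : (i :: l.1).length ≤ n
      · exact subset_closure ⟨⟨_, hl⟩, rfl⟩
      · have hl2 : l.1.length ≤ n := l.2
        rw [h4 _ (by simp at hl ⊢; omega)]
        exact one_mem _
    | one =>
      intro u hu
      have : T A 1 u = u := by funext x; simp [T]
      rwa [this]
    | mul g h _ _ ihg ihh =>
      intro u hu
      have : T A (g * h) u = T A g (T A h u) := by funext x; simp [T, mul_assoc]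
      rw [this]
      exact ihg _ (ihh _ hu)
  let act : MulDistribMulAction G (closure (Set.range w)) :=
    { smul := fun g u => ⟨T A g u, hT g u u.2⟩
      one_smul := fun u => Subtype.ext (by funext x; exact congrArg u.1 (mul_one x))
      mul_smul := fun g h u => Subtype.ext (by funext x; exact congrArg u.1 (mul_assoc x g h).symm)
      smul_one := fun g => Subtype.ext (map_one (T A g))
      smul_mul := fun g u v => Subtype.ext (map_mul (T A g) u.1 v.1) }
  refine ⟨closure (Set.range w), inferInstance, hfin, MulDistribMulAction.toMulAut G _, ?_, ?_,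
    fun u => Subtype.ext (hexp u u.2)⟩
  · rw [injective_iff_map_eq_one]
    intro g hg
    have hθ : θ ∈ closure (Set.range w) := subset_closure ⟨⟨[], by simp⟩, rfl⟩
    have e := congrFun (congrArg Subtype.val (DFunLike.congr_fun hg ⟨θ, hθ⟩)) 1
    change θ (1 * g) = θ 1 at e
    rw [one_mul, h1] at e
    exact h2 g e
  · rw [← Nat.card_eq_fintype_card] at hcard
    rw [pow_mul]
    exact hcard

/-- the abelian group of a given type -/
abbrev B (p : ℕ) {r : ℕ} (k : Fin r → ℕ) : Type := ∀ j : Fin r, Multiplicative (ZMod (p ^ k j))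

theorem card_B {p r : ℕ} (k : Fin r → ℕ) : Nat.card (B p k) = ∏ j, p ^ k j := by
  rw [Nat.card_pi]
  exact Finset.prod_congr rfl fun j _ => Nat.card_zmod _

theorem card_aut {p r n : ℕ} (hp : p.Prime) (k : Fin r → ℕ) (hk : ∀ j, k j ≤ n) :
    Finite (MulAut (B p k)) ∧ Nat.card (MulAut (B p k)) ≤ p ^ (n * r * r) := by
  have : ∀ j, NeZero (p ^ k j) := fun j => ⟨(pow_pos hp.pos _).ne'⟩
  let F : MulAut (B p k) → (Fin r → B p k) := fun φ j =>
    φ (Pi.mulSingle j (Multiplicative.ofAdd 1))
  have hF : Function.Injective F := by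
    intro φ ψ h
    have : φ.toMonoidHom = ψ.toMonoidHom := by
      refine MonoidHom.functions_ext _ _ _ fun j x => ?_
      have e : x = Multiplicative.ofAdd (1 : ZMod (p ^ k j)) ^ (Multiplicative.toAdd x).val := by
        rw [← ofAdd_nsmul, nsmul_eq_mul, mul_one, ZMod.natCast_zmod_val, ofAdd_toAdd]
      rw [e, Pi.mulSingle_pow, map_pow, map_pow]
      exact congrArg (· ^ _) (congrFun h j)
    exact MulEquiv.toMonoidHom_injective this
  refine ⟨Finite.of_injective F hF, (Nat.card_le_card_of_injective F hF).trans ?_⟩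
  rw [Nat.card_fun, card_B, Nat.card_eq_fintype_card, Fintype.card_fin, pow_mul]
  refine Nat.pow_le_pow_left ?_ r
  calc ∏ j, p ^ k j ≤ ∏ _j : Fin r, p ^ n :=
        Finset.prod_le_prod' fun j _ => Nat.pow_le_pow_right hp.pos (hk j)
    _ = p ^ (n * r) := by simp [pow_mul]

theorem classify {W : Type} [CommGroup W] [Finite W] {p n f : ℕ} (hp : p.Prime)
    (hc : Nat.card W ≤ p ^ f) (he : ∀ w : W, w ^ (p ^ n) = 1) :
    ∃ (r : Fin (f + 1)) (k : Fin r → Fin (n + 1)), Nonempty (W ≃* B p fun j => (k j : ℕ)) := by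
  classical
  obtain ⟨ι, _, N, hN, ⟨e⟩⟩ := CommGroup.equiv_prod_multiplicative_zmod_of_finite W
  have h1 : ∀ i, N i ∣ p ^ n := by
    intro i
    have h := he (e.symm (Pi.mulSingle i (Multiplicative.ofAdd 1)))
    rw [← map_pow, MulEquiv.symm_apply_eq, map_one e] at h
    have h2 := congrFun h i
    simp only [Pi.pow_apply, Pi.mulSingle_eq_same, Pi.one_apply] at h2
    rw [← ofAdd_nsmul, nsmul_eq_mul, mul_one, ofAdd_eq_one] at h2
    exact (ZMod.natCast_eq_zero_iff _ _).1 h2
  choose k hk hNk using fun i => (Nat.dvd_prime_pow hp).1 (h1 i)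
  obtain rfl : N = fun i => p ^ k i := funext hNk
  have h2 : Fintype.card ι ≤ f := by
    have : p ^ Fintype.card ι ≤ Nat.card W := by
      rw [Nat.card_congr e.toEquiv, Nat.card_pi]
      calc p ^ Fintype.card ι = ∏ _i : ι, p := by simp
        _ ≤ ∏ i, p ^ k i := Finset.prod_le_prod' fun i _ => Nat.le_self_pow (by
          intro h0
          have := hN i
          simp [h0] at this) p
        _ = _ := Finset.prod_congr rfl fun j _ => (Nat.card_zmod _).symm
    exact (Nat.pow_le_pow_iff_right hp.one_lt).1 (this.trans hc)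
  let q := (Fintype.equivFin ι).symm
  refine ⟨⟨Fintype.card ι, by omega⟩, fun j => ⟨k (q j), Nat.lt_succ_of_le (hk _)⟩, ⟨e.trans ?_⟩⟩
  exact { Equiv.piCongrLeft' (fun i => Multiplicative (ZMod (p ^ k i))) q.symm with
    map_mul' := fun _ _ => rfl }

theorem result : ∃ F : ℕ → ℕ, ∀ p : ℕ, p.Prime → ∀ n : ℕ, 1 ≤ n →
    ∃ (U : Type) (_ : Group U), Finite U ∧ Nat.card U ≤ p ^ F n ∧
      ∀ (H : Type) [Group H], Nat.card H = p ^ n → ∃ f : H →* U, Function.Injective f := by
  classical
  let f : ℕ → ℕ := fun n => n * m n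
  let τ : ℕ → Type := fun n => Σ r : Fin (f n + 1), Fin r → Fin (n + 1)
  refine ⟨fun n => n * (2 ^ n) ^ n + n * f n * f n * Fintype.card (τ n), fun p hp n _ => ?_⟩
  have hpos : 0 < p ^ n := pow_pos hp.pos n
  by_cases hpn : 2 ^ n < p
  · have hA := fun t : τ n => card_aut (n := n) hp (fun j => (t.2 j : ℕ))
      fun j => Nat.le_of_lt_succ (t.2 j).2
    have := fun t => (hA t).1
    refine ⟨∀ t : τ n, MulAut (B p fun j => (t.2 j : ℕ)), inferInstance, inferInstance, ?_, ?_⟩
    · rw [Nat.card_pi]
      calc _ ≤ ∏ _t : τ n, p ^ (n * f n * f n) := Finset.prod_le_prod' fun t _ => by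
            refine (hA t).2.trans (Nat.pow_le_pow_right hp.pos ?_)
            have : (t.1 : ℕ) ≤ f n := Nat.le_of_lt_succ t.1.2
            gcongr
        _ = p ^ (n * f n * f n * Fintype.card (τ n)) := by simp [pow_mul]
        _ ≤ _ := Nat.pow_le_pow_right hp.pos (Nat.le_add_left _ _)
    · intro H _ hH
      obtain ⟨W, _, _, ρ, hρ, hc, he⟩ := module hp hpn hH
      obtain ⟨r, k, ⟨e⟩⟩ := classify hp hc he
      refine ⟨(MonoidHom.mulSingle (fun t : τ n => MulAut (B p fun j => (t.2 j : ℕ))) ⟨r, k⟩).comp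
        ((MulAut.congr e).toMonoidHom.comp ρ), ?_⟩
      exact (Pi.mulSingle_injective (M := fun t : τ n => MulAut (B p fun j => (t.2 j : ℕ)))
        ⟨r, k⟩).comp ((MulAut.congr e).injective.comp hρ)
  · refine ⟨Equiv.Perm (Fin (p ^ n)), inferInstance, inferInstance, ?_, ?_⟩
    · rw [Nat.card_eq_fintype_card, Fintype.card_perm, Fintype.card_fin]
      calc (p ^ n).factorial ≤ (p ^ n) ^ (p ^ n) := Nat.factorial_le_pow _
        _ ≤ (p ^ n) ^ ((2 ^ n) ^ n) :=
          Nat.pow_le_pow_right hpos (Nat.pow_le_pow_left (not_lt.1 hpn) n)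
        _ = p ^ (n * (2 ^ n) ^ n) := by rw [← pow_mul]
        _ ≤ _ := Nat.pow_le_pow_right hp.pos (Nat.le_add_right _ _)
    · intro H _ hH
      have : Finite H := Nat.finite_of_card_ne_zero (hH ▸ hpos.ne')
      let e : H ≃ Fin (p ^ n) := Finite.equivFinOfCardEq hH
      exact ⟨(e.permCongrHom).toMonoidHom.comp (MulAction.toPermHom H H),
        e.permCongrHom.injective.comp MulAction.toPerm_injective⟩

end Pool.Agent.Results.MP_1000ca_al.Q2
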